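import Pool.Agent.Lib.MP_5f1e54_an.UE.Core

/-!
# UE-All: all oriented integral matrices between two matrices `IsT` are realised

`X = !![z + u, al - z - u; z, al - z]`, `g z = al a - u a'`, from `IsT a b` to `IsT a' b'`; all primes of `al ≥ 1` divide `lam`, all
primes of `u ≠ 0` divide `mu`.
`unit_lnk`: `u = ± 1`, induction on `al`: a prime `p ∣ al` is split off on the left with `step (c, d) = (p, 1)`.
`all_lnk`: induction on `|u|`: for a prime `q ∣ u` choose `c ∣ lam` with `q (g - 1) ≤ c` and `lam / c ≥ |mu / q| (g - 1)`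
(`exists_div`); with `M` of type `(c, 1)` (`unit_lnk`) the matrix `X M` has the left factor `N` of type `(c, q)` (`step`),
`X M = N X₂`.
-/

open Matrix

namespace Pool.Agent.DimRep.UE

open Pool.Agent.DimRep.TB2 (Lnk)

variable {mu m g lam : ℤ}

theorem Ctx.cop_lam (h : Ctx mu m g lam) : IsCoprime g lam := by
  rw [h.lam_eq, add_comm]
  exact h.cop.add_mul_right_right m

/-- `|u| = 1` -/
theorem unit_lnk (h : Ctx mu m g lam) (al : ℕ) : ∀ (a b a' b' z u : ℤ)
    (B C : Matrix (Fin 2) (Fin 2) ℕ), 1 ≤ al → IsT mu m a b B → IsT mu m a' b' C → a + b = g → a' + b' = g →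
    (u = 1 ∨ u = -1) → (∀ p : ℕ, p.Prime → p ∣ al → (p : ℤ) ∣ lam) →
    g * z = al * a - u * a' → Lnk B C (zQ !![z + u, al - z - u; z, al - z]) := by
  induction al using Nat.strong_induction_on with
  | _ al ih =>
    intro a b a' b' z u B C ha hB hC hn hn' hu hp hz
    have hg := h.g2
    rcases Nat.lt_or_ge 1 al with h1 | h1
    · -- a prime divisor of `al`
      obtain ⟨p, hpp, a2, rfl⟩ : ∃ p : ℕ, p.Prime ∧ ∃ a2, al = p * a2 := by
        obtain ⟨p, hpp, a2, h⟩ := Nat.exists_prime_and_dvd (by omega : al ≠ 1)
        exact ⟨p, hpp, a2, h⟩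
      have hpl : (p : ℤ) ∣ lam := hp p hpp (Dvd.intro _ rfl)
      obtain ⟨c2, hc2⟩ := hpl
      have hp1 : (1 : ℤ) ≤ p := by exact_mod_cast hpp.one_le
      have hc21 : 1 ≤ c2 := by
        have := h.lam1
        have : 0 < (p : ℤ) * c2 := by omega
        have := (mul_pos_iff_of_pos_left (by omega)).1 this
        omega
      have hsize : |mu| = 1 ∨ |mu| * (g - 1) ≤ c2 := by
        rcases h.small p hpp ⟨c2, hc2⟩ with h2 | h2
        · exact Or.inl h2
        · right
          have h3 : (p : ℤ) * (|mu| * (g - 1)) ≤ p * c2 := by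
            have h4 : (p : ℤ) * |mu| * (g - 1) * 1 ≤ p * |mu| * (g - 1) * (g - 1) := by
              apply mul_le_mul_of_nonneg_left (by omega)
              have := abs_nonneg mu
              have : 0 ≤ g - 1 := by omega
              positivity
            rw [← hc2]
            calc (p : ℤ) * (|mu| * (g - 1)) = (p : ℤ) * |mu| * (g - 1) * 1 := by ring
              _ ≤ p * |mu| * (g - 1) * (g - 1) := h4
              _ = p * |mu| * (g - 1) ^ 2 := by ring
              _ ≤ lam := h2
          exact le_of_mul_le_mul_left h3 (by omega)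
      obtain ⟨a1, b1, v, M, g1, g2, g3, g4⟩ := step h (c := p) (c2 := c2) (d := 1) (d2 := mu) hc2.symm
        (one_mul _) hp1 (Or.inl abs_one) hsize hC hn'
      have ha2 : 1 ≤ a2 := by
        rcases Nat.eq_zero_or_pos a2 with h | h
        · subst h; simp at ha
        · exact h
      have hlt : a2 < p * a2 := by
        have := hpp.two_le
        nlinarith
      have hgp : IsCoprime (p : ℤ) g :=
        (IsCoprime.of_isCoprime_of_dvd_right h.cop_lam ⟨c2, hc2⟩).symm
      -- `p ∣ z - u v`
      obtain ⟨z2, hz2⟩ : (p : ℤ) ∣ z - u * v := by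
        have k1 : (p : ℤ) ∣ g * (z - u * v) := by
          refine ⟨a2 * a - u * a1, ?_⟩
          push_cast at hz
          linear_combination hz - u * g3
        exact hgp.dvd_of_dvd_mul_left k1
      have hz' : g * z2 = a2 * a - u * a1 := by
        apply mul_left_cancel₀ (by omega : (p : ℤ) ≠ 0)
        push_cast at hz
        linear_combination hz - u * g3 - g * hz2
      have h2 := ih a2 hlt a b a1 b1 z2 u B M ha2 hB g1 hn g2 hu
        (fun q hq hqa => hp q hq (hqa.trans (Dvd.intro_left _ rfl))) hz'
      have h3 := h2.trans g4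
      rw [← zQ_mul] at h3
      have hz3 : z = u * v + p * z2 := by linarith
      have h4 : (!![v + 1, (p : ℤ) - v - 1; v, p - v] : Matrix (Fin 2) (Fin 2) ℤ)
          * !![z2 + u, a2 - z2 - u; z2, a2 - z2] = !![z + u, ((p * a2 : ℕ) : ℤ) - z - u; z, ((p * a2 : ℕ) : ℤ) - z] := by
        push_cast
        rw [hz3]
        ext i j
        fin_cases i <;> fin_cases j <;> simp [Matrix.mul_apply, Fin.sum_univ_two] <;> ring
      rw [h4] at h3
      exact h3
    · have ha1 : al = 1 := by omega
      subst ha1
      obtain ⟨hB0, hx, hy, hcB⟩ := hB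
      obtain ⟨hC0, hx', hy', hcC⟩ := hC
      push_cast at hz ⊢
      rcases hu with rfl | rfl
      · have hz0 : z = 0 := by
          by_contra hne
          rcases lt_or_gt_of_ne hne with h | h
          · have : g * z ≤ g * (-1) := by
              apply mul_le_mul_of_nonneg_left (by omega) (by omega)
            omega
          · have : g * 1 ≤ g * z := by
              apply mul_le_mul_of_nonneg_left (by omega) (by omega)
            omega
        subst hz0
        have hxx : a' = a := by linarith
        have hyy : b' = b := by linarith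
        subst hxx
        subst hyy
        have hBC : B = C := isT_inj ⟨hB0, hx, hy, hcB⟩ ⟨hC0, hx', hy', hcC⟩
        subst hBC
        have : (!![0 + 1, 1 - 0 - 1; 0, 1 - 0] : Matrix (Fin 2) (Fin 2) ℤ) = 1 := by
          ext i j
          fin_cases i <;> fin_cases j <;> simp
        rw [this, zQ_one]
        exact Lnk.refl
      · have hz1 : z = 1 := by
          have h2 : 0 < g * z := by rw [hz]; omega
          have h3 : 0 < z := (mul_pos_iff_of_pos_left (by omega)).1 h2
          by_contra hne
          have : g * 2 ≤ g * z := by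
            apply mul_le_mul_of_nonneg_left (by omega) (by omega)
          omega
        subst hz1
        have hxx : a' = b := by linarith
        have hyy : b' = a := by linarith
        subst hxx
        subst hyy
        have : (!![1 + -1, 1 - 1 - -1; 1, 1 - 1] : Matrix (Fin 2) (Fin 2) ℤ) = !![0, 1; 1, 0] := by
          ext i j
          fin_cases i <;> fin_cases j <;> simp
        rw [this]
        have k1 := h.m1
        have k2 := h.mum
        have k3 : m ≤ m * b' := by nlinarith
        have k4 : m ≤ m * a' := by nlinarith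
        refine lnk_of_int (R := !![m * a', m * b' + mu; m * a' + mu, m * b']) ?_ ?_ ?_ ?_ ?_
        · exact nn_fin2 (by omega) (by omega) (by omega) (by omega)
        · exact nn_fin2 (by omega) (by omega) (by omega) (by omega)
        · rw [hB0]
          ext i j
          fin_cases i <;> fin_cases j <;> simp [Matrix.mul_apply, Fin.sum_univ_two]
        · rw [hC0]
          ext i j
          fin_cases i <;> fin_cases j <;> simp [Matrix.mul_apply, Fin.sum_univ_two]
        · rw [Matrix.det_fin_two_of]
          norm_num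

/-- a divisor of suitable size -/
theorem exists_div {L K : ℕ} (hL : 1 ≤ L) (hK : 2 ≤ K) (hKL : K ≤ L) :
    ∃ c c2 p : ℕ, c * c2 = L ∧ K ≤ c ∧ p.Prime ∧ p ∣ L ∧ c < K * p := by
  classical
  have hex : ∃ c, c ∣ L ∧ K ≤ c := ⟨L, dvd_rfl, hKL⟩
  obtain ⟨hc, hKc⟩ := Nat.find_spec hex
  have hmin := fun k => Nat.find_min hex (m := k)
  generalize Nat.find hex = c at *
  obtain ⟨p, hpp, k, hk⟩ := Nat.exists_prime_and_dvd (by omega : c ≠ 1)
  obtain ⟨c2, hc2⟩ := hc
  refine ⟨c, c2, p, hc2.symm, hKc, hpp, ⟨k * c2, by rw [hc2, hk, Nat.mul_assoc]⟩, ?_⟩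
  have hk0 : 0 < k := by
    rcases Nat.eq_zero_or_pos k with h | h
    · subst h
      omega
    · exact h
  have hlt : k < c := by
    rw [hk]
    have := hpp.two_le
    nlinarith
  have h1 := hmin k hlt
  have h2 : ¬ K ≤ k := fun h3 => h1 ⟨⟨p * c2, by rw [hc2, hk]; ring⟩, h3⟩
  rw [hk, mul_comm]
  exact Nat.mul_lt_mul_of_pos_right (not_le.1 h2) hpp.pos

/-- `mu = u = ...`: all oriented integral matrices are realised -/
theorem all_lnk (h : Ctx mu m g lam) (n : ℕ) : ∀ (al : ℕ) (a b a' b' z u : ℤ)
    (B C : Matrix (Fin 2) (Fin 2) ℕ), u.natAbs = n → 1 ≤ al → IsT mu m a b B → IsT mu m a' b' C → a + b = g →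
    a' + b' = g → u ≠ 0 → (∀ p : ℕ, p.Prime → (p : ℤ) ∣ u → (p : ℤ) ∣ mu) →
    (∀ p : ℕ, p.Prime → p ∣ al → (p : ℤ) ∣ lam) →
    g * z = al * a - u * a' → Lnk B C (zQ !![z + u, al - z - u; z, al - z]) := by
  induction n using Nat.strong_induction_on with
  | _ n ih =>
    intro al a b a' b' z u B C hun hal hB hC hn hn' hu0 hup hp hz
    rcases eq_or_ne u.natAbs 1 with h1 | h1
    · exact unit_lnk h al a b a' b' z u B C hal hB hC hn hn' (by omega) hp hz
    · obtain ⟨q, hq, hqu⟩ := Nat.exists_prime_and_dvd h1
      have hqu' : (q : ℤ) ∣ u := Int.natCast_dvd.2 hqu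
      obtain ⟨d2, hd2⟩ := hup q hq hqu'
      obtain ⟨u2, hu2⟩ := hqu'
      have hg := h.g2
      have hlam1 := h.lam1
      have hq2 : (2 : ℤ) ≤ q := by exact_mod_cast hq.two_le
      have habs : |mu| = q * |d2| := by
        rw [hd2, abs_mul, abs_of_nonneg (by omega : (0 : ℤ) ≤ q)]
      have hd20 : 1 ≤ |d2| := by
        have : d2 ≠ 0 := by
          rintro rfl
          exact h.mu0 (by rw [hd2, mul_zero])
        exact Int.one_le_abs this
      have hmu2 : 2 ≤ |mu| := by
        rw [habs]
        nlinarith
      -- the divisor `c`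
      obtain ⟨c, c2, hcc, hc1, hcq, hc2⟩ : ∃ c c2 : ℤ, c * c2 = lam ∧ 1 ≤ c ∧ (q : ℤ) * (g - 1) ≤ c ∧
          |d2| * (g - 1) ≤ c2 := by
        obtain ⟨L, hL⟩ := Int.eq_ofNat_of_zero_le (by omega : 0 ≤ lam)
        obtain ⟨G, hG⟩ := Int.eq_ofNat_of_zero_le (by omega : 0 ≤ g - 1)
        have hL1 : 1 ≤ L := by omega
        have hG1 : 1 ≤ G := by omega
        have hsm : ∀ p : ℕ, p.Prime → p ∣ L → (p : ℤ) * (q * |d2|) * G ^ 2 ≤ L := by
          intro p hpp hpL
          have h2 : (p : ℤ) ∣ lam := by
            rw [hL]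
            exact_mod_cast hpL
          rcases h.small p hpp h2 with h3 | h3
          · omega
          · rw [← hG, ← habs, ← hL]
            exact h3
        have hLne : L ≠ 1 := by
          intro hL'
          -- `lam = 1` is impossible: `lam > ...`; here `lam ≥ m g + mu ≥ ...`
          have e := h.lam_eq
          have e1 := h.mum
          have e2 := h.m1
          rw [hL, hL'] at e
          have e3 : -m ≤ mu := by omega
          have e4 : m * 2 ≤ m * g := mul_le_mul_of_nonneg_left hg (by omega)
          have e5 : m * g + mu = 1 := by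
            rw [← e]; rfl
          have e6 : m = 1 := by omega
          subst e6
          have e7 : |mu| ≤ 1 := abs_le.2 ⟨by omega, by omega⟩
          omega
        obtain ⟨p0, hp0, hp0L⟩ := Nat.exists_prime_and_dvd hLne
        have hKL : q * G ≤ L := by
          have h2 := hsm p0 hp0 hp0L
          have h3 : (1 : ℤ) ≤ p0 := by exact_mod_cast hp0.one_le
          have h4 : (1 : ℤ) ≤ G := by exact_mod_cast hG1
          have h5 : (q : ℤ) * G ≤ L := by
            calc (q : ℤ) * G = 1 * (q * 1) * (G * 1) := by ring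
              _ ≤ (p0 : ℤ) * (q * |d2|) * (G * G) := by gcongr
              _ = (p0 : ℤ) * (q * |d2|) * G ^ 2 := by ring
              _ ≤ L := h2
          exact_mod_cast h5
        obtain ⟨c, c2, p, k1, k2, k3, k4, k5⟩ := exists_div hL1 (by
          have := hq.two_le
          nlinarith : 2 ≤ q * G) hKL
        refine ⟨c, c2, by rw [hL, ← k1]; push_cast; rfl, ?_, ?_, ?_⟩
        · have : 1 ≤ c := by
            have := hq.two_le
            nlinarith
          exact_mod_cast this
        · rw [hG]
          exact_mod_cast k2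
        · rw [hG]
          by_contra hcon
          have h2 := hsm p k3 k4
          have hc0 : (0 : ℤ) < c := by
            have : 1 ≤ c := by
              have := hq.two_le
              nlinarith
            exact_mod_cast this
          have h3 : (c : ℤ) * c2 < c * (|d2| * G) := mul_lt_mul_of_pos_left (not_le.1 hcon) hc0
          have k5' : (c : ℤ) < q * G * p := by exact_mod_cast k5
          have h4 : (c : ℤ) * (|d2| * G) ≤ q * G * p * (|d2| * G) :=
            mul_le_mul_of_nonneg_right k5'.le (by positivity)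
          have h5 : (q : ℤ) * G * p * (|d2| * G) = (p : ℤ) * (q * |d2|) * G ^ 2 := by ring
          have h6 : (c : ℤ) * c2 = L := by exact_mod_cast k1
          omega
      have hgc : IsCoprime c g := (IsCoprime.of_isCoprime_of_dvd_right h.cop_lam ⟨c2, hcc.symm⟩).symm
      -- the left factor of type `(c, q)`
      obtain ⟨a3, b3, v, M, s1, s2, s3, s4⟩ := step h (c := c) (c2 := c2) (d := q) (d2 := d2) hcc hd2.symm hc1
        (Or.inr (by rw [abs_of_nonneg (by omega : (0 : ℤ) ≤ q)]; exact hcq)) (Or.inr hc2) hC hn'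
      -- the right factor of type `(c, 1)`
      obtain ⟨cn, hcn⟩ := Int.eq_ofNat_of_zero_le (by omega : 0 ≤ c)
      have hcn1 : 1 ≤ cn := by omega
      have hcp : ∀ p : ℕ, p.Prime → p ∣ cn → (p : ℤ) ∣ lam := by
        intro p _ hpc
        have : (p : ℤ) ∣ c := by rw [hcn]; exact_mod_cast hpc
        exact this.trans ⟨c2, hcc.symm⟩
      obtain ⟨a1, b1, w, B1, t1, t2, t3, t4⟩ : ∃ (a1 b1 w : ℤ) (B1 : Matrix (Fin 2) (Fin 2) ℕ),
          IsT mu m a1 b1 B1 ∧ a1 + b1 = g ∧ g * w = c * a1 - a ∧
            Lnk B1 B (zQ !![w + 1, c - w - 1; w, c - w]) := by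
        -- the object
        have hgc2 := hgc.symm
        obtain ⟨s, t, hst⟩ := hgc2
        obtain ⟨hB0, ha, hb, hcop⟩ := hB
        have hg0 : g ≠ 0 := by omega
        obtain ⟨a1, ha1⟩ : ∃ a1, a1 = (t * a) % g := ⟨_, rfl⟩
        obtain ⟨w0, hw0⟩ : ∃ w, t * a = g * w + a1 :=
          ⟨(t * a) / g, by rw [ha1]; exact (Int.mul_ediv_add_emod _ _).symm⟩
        have e0 : 0 ≤ a1 := by rw [ha1]; exact Int.emod_nonneg _ hg0
        have e1 : a1 < g := by rw [ha1]; exact Int.emod_lt_of_pos _ (by omega)
        obtain ⟨w, hw⟩ : ∃ w, g * w = c * a1 - a := by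
          refine ⟨-(c * w0) - s * a, ?_⟩
          linear_combination c * hw0 + (-a) * hst
        have hcop1 : IsCoprime a1 g := by
          rw [hn] at hcop
          have k2 : IsCoprime (c * a1) g := by
            have : c * a1 = a + w * g := by linear_combination -hw
            rw [this]
            exact hcop.add_mul_right_left w
          exact k2.of_mul_left_right
        have ha11 : 1 ≤ a1 := by
          rcases lt_or_eq_of_le e0 with hlt | heq
          · omega
          · exfalso
            rw [← heq] at hcop1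
            have := isCoprime_zero_left.1 hcop1
            rw [Int.isUnit_iff] at this
            omega
        obtain ⟨B1, hB1⟩ := exists_isT h ha11 (by omega : 1 ≤ g - a1)
          (by rw [show a1 + (g - a1) = g by ring]; exact hcop1)
        refine ⟨a1, g - a1, w, B1, hB1, by ring, hw, ?_⟩
        have h2 := unit_lnk h cn a1 (g - a1) a b w 1 B1 B hcn1 hB1 ⟨hB0, ha, hb, hcop⟩ (by ring) hn (Or.inl rfl)
          hcp (by rw [← hcn, one_mul]; exact hw)
        rw [← hcn] at h2
        exact h2
      -- `z + al w = v u2 + c z2`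
      obtain ⟨z2, hz2⟩ : c ∣ (z + al * w) - v * u2 := by
        have k1 : c ∣ g * ((z + al * w) - v * u2) := by
          refine ⟨al * a1 - u2 * a3, ?_⟩
          rw [hu2] at hz
          linear_combination hz + al * t3 - u2 * s3
        exact hgc.dvd_of_dvd_mul_left k1
      have hz' : g * z2 = al * a1 - u2 * a3 := by
        apply mul_left_cancel₀ (by omega : c ≠ 0)
        rw [hu2] at hz
        linear_combination hz + al * t3 - u2 * s3 - g * hz2
      have hu20 : u2 ≠ 0 := by
        rintro rfl
        exact hu0 (by rw [hu2, mul_zero])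
      have hlt : u2.natAbs < n := by
        rw [← hun, hu2, Int.natAbs_mul, Int.natAbs_natCast]
        have := hq.two_le
        have : 1 ≤ u2.natAbs := Nat.one_le_iff_ne_zero.2 (Int.natAbs_ne_zero.2 hu20)
        nlinarith
      have h2 := ih u2.natAbs hlt al a1 b1 a3 b3 z2 u2 B1 M rfl hal t1 s1 t2 s2 hu20
        (fun p hpp hpu => hup p hpp (by rw [hu2]; exact hpu.trans (Dvd.intro_left _ rfl))) hp hz'
      have h3 := t4.symm.trans (h2.trans s4)
      have hdet : IsUnit (zQ !![w + 1, c - w - 1; w, c - w]).det := isUnit_iff_ne_zero.2 t4.1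
      have h4 : (!![v + q, c - v - q; v, c - v] : Matrix (Fin 2) (Fin 2) ℤ)
          * !![z2 + u2, al - z2 - u2; z2, al - z2]
          = !![z + u, (al : ℤ) - z - u; z, al - z] * !![w + 1, c - w - 1; w, c - w] := by
        have hz3 : z = v * u2 + c * z2 - al * w := by linarith
        rw [hz3, hu2]
        ext i j
        fin_cases i <;> fin_cases j <;> simp [Matrix.mul_apply, Fin.sum_univ_two] <;> ring
      rw [← zQ_mul, h4, zQ_mul, Matrix.mul_nonsing_inv_cancel_right _ _ hdet] at h3
      exact h3

end Pool.Agent.DimRep.UE
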