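import Pool.Agent.Lib.MP_5f1e54_an.TB2.Lnk

/-!
# UE-Aut: the matrix of an automorphism of the dimension group of an invertible 2 x 2 matrix

The same argument as in `TB2/Aut.lean`, without any hypothesis on the eigenvalues.
-/

open Matrix

namespace Pool.Agent.DimRep.UE

variable {A : Matrix (Fin 2) (Fin 2) ℕ} {ψ : (Fin 2 → ℚ) → (Fin 2 → ℚ)}

private theorem autU_range (B : Matrix (Fin 2) (Fin 2) ℚ) (hBA : B * toQ A = 1)
    (v : Fin 2 → ℚ) (k : ℕ) : v = (v ᵥ* B ^ k) ᵥ* toQ A ^ k := by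
  have hcomm : Commute B (toQ A) := by
    show B * toQ A = toQ A * B
    rw [hBA, mul_eq_one_comm.mp hBA]
  rw [Matrix.vecMul_vecMul, ← hcomm.mul_pow, hBA, one_pow, Matrix.vecMul_one]

private theorem autU_mem (B : Matrix (Fin 2) (Fin 2) ℚ) (hBA : B * toQ A = 1)
    (v : Fin 2 → ℚ) (h : ∃ (k : ℕ) (z : Fin 2 → ℤ), v ᵥ* toQ A ^ k = fun i => (z i : ℚ)) :
    v ∈ Delta A :=
  ⟨⟨v ᵥ* B ^ 2, autU_range B hBA v 2⟩, h⟩

private theorem autU_int (B : Matrix (Fin 2) (Fin 2) ℚ) (hBA : B * toQ A = 1)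
    (z : Fin 2 → ℤ) : (fun i => (z i : ℚ)) ∈ Delta A :=
  autU_mem B hBA _ ⟨0, z, by rw [pow_zero, Matrix.vecMul_one]⟩

private theorem autU_single (B : Matrix (Fin 2) (Fin 2) ℚ) (hBA : B * toQ A = 1)
    (i : Fin 2) : (Pi.single i 1 : Fin 2 → ℚ) ∈ Delta A := by
  have h := autU_int B hBA (Pi.single i 1 : Fin 2 → ℤ)
  have h2 : (fun j => ((Pi.single i 1 : Fin 2 → ℤ) j : ℚ)) = (Pi.single i 1 : Fin 2 → ℚ) := by
    funext j
    simp only [Pi.single_apply]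
    split_ifs <;> simp
  rwa [h2] at h

private theorem autU_closed (B : Matrix (Fin 2) (Fin 2) ℚ) (hBA : B * toQ A = 1)
    (v : Delta A) (k : ℕ) : (v : Fin 2 → ℚ) ᵥ* toQ A ^ k ∈ Delta A := by
  obtain ⟨_, l, z, hz⟩ := v.2
  refine autU_mem B hBA _ ⟨l, z ᵥ* toZ A ^ k, ?_⟩
  rw [Matrix.vecMul_vecMul, ← pow_add, add_comm k l, pow_add, ← Matrix.vecMul_vecMul, hz,
    cast_vecMul_pow]

/-- the matrix of a group homomorphism -/
private noncomputable def autU_X (B : Matrix (Fin 2) (Fin 2) ℚ) (hBA : B * toQ A = 1)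
    (φ : Delta A ≃+ Delta A) : Matrix (Fin 2) (Fin 2) ℚ :=
  Matrix.of fun i => (φ ⟨Pi.single i 1, autU_single B hBA i⟩ : Fin 2 → ℚ)

private theorem autU_X_int (B : Matrix (Fin 2) (Fin 2) ℚ) (hBA : B * toQ A = 1)
    (φ : Delta A ≃+ Delta A) (z : Fin 2 → ℤ) (v : Delta A)
    (hv : (v : Fin 2 → ℚ) = fun i => (z i : ℚ)) :
    (φ v : Fin 2 → ℚ) = (v : Fin 2 → ℚ) ᵥ* autU_X B hBA φ := by
  have h1 : v = ∑ i, z i • (⟨Pi.single i 1, autU_single B hBA i⟩ : Delta A) := by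
    apply Subtype.ext
    rw [AddSubgroup.val_finsetSum, hv]
    funext j
    rw [Finset.sum_apply]
    simp [Pi.single_apply]
  have h2 : φ v = ∑ i, z i • φ (⟨Pi.single i 1, autU_single B hBA i⟩ : Delta A) := by
    conv_lhs => rw [h1]
    rw [map_sum]
    exact Finset.sum_congr rfl fun i _ => map_zsmul φ _ _
  rw [h2, AddSubgroup.val_finsetSum, hv]
  funext j
  rw [Finset.sum_apply]
  simp only [Matrix.vecMul, dotProduct, autU_X, Matrix.of_apply]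
  refine Finset.sum_congr rfl fun i _ => ?_
  simp

private def autU_Comm (A : Matrix (Fin 2) (Fin 2) ℕ) (φ : Delta A ≃+ Delta A) : Prop :=
  ∀ v w : Delta A, (w : Fin 2 → ℚ) = (v : Fin 2 → ℚ) ᵥ* toQ A →
    (φ w : Fin 2 → ℚ) = (φ v : Fin 2 → ℚ) ᵥ* toQ A

private theorem autU_commk (B : Matrix (Fin 2) (Fin 2) ℚ) (hBA : B * toQ A = 1)
    (φ : Delta A ≃+ Delta A) (hφ : autU_Comm A φ) (k : ℕ) :
    ∀ v w : Delta A, (w : Fin 2 → ℚ) = (v : Fin 2 → ℚ) ᵥ* toQ A ^ k →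
    (φ w : Fin 2 → ℚ) = (φ v : Fin 2 → ℚ) ᵥ* toQ A ^ k := by
  induction k with
  | zero =>
    intro v w h
    rw [pow_zero, Matrix.vecMul_one] at h
    rw [pow_zero, Matrix.vecMul_one, Subtype.ext h]
  | succ k ih =>
    intro v w h
    have h1 := ih v ⟨(v : Fin 2 → ℚ) ᵥ* toQ A ^ k, autU_closed B hBA v k⟩ rfl
    have h2 := hφ ⟨(v : Fin 2 → ℚ) ᵥ* toQ A ^ k, autU_closed B hBA v k⟩ w (by
      rw [h, pow_succ, ← Matrix.vecMul_vecMul])
    rw [h2, h1, Matrix.vecMul_vecMul, ← pow_succ]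

private theorem autU_AX (B : Matrix (Fin 2) (Fin 2) ℚ) (hBA : B * toQ A = 1)
    (φ : Delta A ≃+ Delta A) (hφ : autU_Comm A φ) :
    toQ A * autU_X B hBA φ = autU_X B hBA φ * toQ A := by
  ext i j
  have h1 := autU_closed B hBA ⟨Pi.single i 1, autU_single B hBA i⟩ 1
  rw [pow_one] at h1
  have h2 := hφ ⟨Pi.single i 1, autU_single B hBA i⟩ ⟨_, h1⟩ rfl
  have h3 := autU_X_int B hBA φ (fun j => toZ A i j) ⟨_, h1⟩ (by
    funext j
    simp [toQ, toZ])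
  rw [h3] at h2
  have h4 := congrFun h2 j
  simp only at h4
  rw [Matrix.vecMul_vecMul, Matrix.single_one_vecMul] at h4
  exact h4

private theorem autU_vec (B : Matrix (Fin 2) (Fin 2) ℚ) (hBA : B * toQ A = 1)
    (φ : Delta A ≃+ Delta A) (hφ : autU_Comm A φ) (v : Delta A) :
    (φ v : Fin 2 → ℚ) = (v : Fin 2 → ℚ) ᵥ* autU_X B hBA φ := by
  obtain ⟨_, k, z, hz⟩ := v.2
  have h1 := autU_commk B hBA φ hφ k v ⟨_, autU_closed B hBA v k⟩ rfl
  have h2 := autU_X_int B hBA φ z ⟨_, autU_closed B hBA v k⟩ hz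
  have h3 : (φ v : Fin 2 → ℚ) ᵥ* toQ A ^ k =
      ((v : Fin 2 → ℚ) ᵥ* autU_X B hBA φ) ᵥ* toQ A ^ k := by
    rw [← h1, h2]
    have hc : Commute (toQ A) (autU_X B hBA φ) := autU_AX B hBA φ hφ
    rw [Matrix.vecMul_vecMul, Matrix.vecMul_vecMul, (hc.pow_left k).eq]
  have hAB : toQ A * B = 1 := mul_eq_one_comm.mp hBA
  have hcAB : Commute (toQ A) B := by
    show toQ A * B = B * toQ A
    rw [hBA, hAB]
  have h4 : ∀ u : Fin 2 → ℚ, (u ᵥ* toQ A ^ k) ᵥ* B ^ k = u := by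
    intro u
    rw [Matrix.vecMul_vecMul, ← hcAB.mul_pow, hAB, one_pow, Matrix.vecMul_one]
  rw [← h4 (φ v : Fin 2 → ℚ), h3, h4]

private theorem autU_exists (B : Matrix (Fin 2) (Fin 2) ℚ) (hBA : B * toQ A = 1)
    (ψ : Delta A ≃+ Delta A) (hψ : IsAut A ψ) :
    ∃ (X X' : Matrix (Fin 2) (Fin 2) ℚ) (Y Y' : Matrix (Fin 2) (Fin 2) ℤ) (K : ℕ),
      X * X' = 1 ∧ toQ A * X = X * toQ A ∧
      (∀ v : Delta A, (ψ v : Fin 2 → ℚ) = (v : Fin 2 → ℚ) ᵥ* X) ∧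
      X * toQ A ^ K = zQ Y ∧ X' * toQ A ^ K = zQ Y' ∧
      ∃ (k : ℕ), ∀ j, 0 ≤ (X * toQ A ^ k) 0 j := by
  have hc1 : autU_Comm A ψ := fun v w h => hψ.comm v w h
  have hc2 : autU_Comm A ψ.symm := by
    intro v w h
    have hm := autU_closed B hBA (ψ.symm v) 1
    rw [pow_one] at hm
    have h1 := hψ.comm (ψ.symm v) ⟨_, hm⟩ rfl
    rw [AddEquiv.apply_symm_apply, ← h] at h1
    have h2 : ψ ⟨_, hm⟩ = w := Subtype.ext h1
    rw [← h2, AddEquiv.symm_apply_apply]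
  have key : ∀ φ : Delta A ≃+ Delta A, ∃ k : Fin 2 → ℕ, ∀ K, (∀ i, k i ≤ K) →
      ∃ Y : Matrix (Fin 2) (Fin 2) ℤ, autU_X B hBA φ * toQ A ^ K = zQ Y := by
    intro φ
    have h1 : ∀ i, ∃ (k : ℕ) (z : Fin 2 → ℤ),
        (autU_X B hBA φ) i ᵥ* toQ A ^ k = fun j => (z j : ℚ) := by
      intro i
      exact (φ ⟨Pi.single i 1, autU_single B hBA i⟩).2.2
    choose k z hz using h1
    refine ⟨k, fun K hK => ⟨Matrix.of fun i => z i ᵥ* toZ A ^ (K - k i), ?_⟩⟩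
    ext i j
    have h2 : (autU_X B hBA φ * toQ A ^ K) i j =
        ((autU_X B hBA φ) i ᵥ* toQ A ^ K) j := rfl
    rw [h2]
    have h3 : toQ A ^ K = toQ A ^ (k i) * toQ A ^ (K - k i) := by
      rw [← pow_add, Nat.add_sub_cancel' (hK i)]
    rw [h3, ← Matrix.vecMul_vecMul, hz i, cast_vecMul_pow]
    rfl
  obtain ⟨k1, hk1⟩ := key ψ
  obtain ⟨k2, hk2⟩ := key ψ.symm
  obtain ⟨Y, hY⟩ := hk1 (∑ i, k1 i + ∑ i, k2 i) fun i =>
    le_trans (Finset.single_le_sum (f := k1) (fun _ _ => Nat.zero_le _) (Finset.mem_univ i))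
      (Nat.le_add_right _ _)
  obtain ⟨Y', hY'⟩ := hk2 (∑ i, k1 i + ∑ i, k2 i) fun i =>
    le_trans (Finset.single_le_sum (f := k2) (fun _ _ => Nat.zero_le _) (Finset.mem_univ i))
      (Nat.le_add_left _ _)
  refine ⟨autU_X B hBA ψ, autU_X B hBA ψ.symm, Y, Y', _, ?_, autU_AX B hBA ψ hc1,
    autU_vec B hBA ψ hc1, hY, hY', ?_⟩
  · ext i j
    have h1 := autU_vec B hBA ψ.symm hc2 (ψ ⟨Pi.single i 1, autU_single B hBA i⟩)
    rw [AddEquiv.symm_apply_apply] at h1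
    have h2 := congrFun h1 j
    have h3 : (autU_X B hBA ψ * autU_X B hBA ψ.symm) i j =
        ((ψ ⟨Pi.single i 1, autU_single B hBA i⟩ : Fin 2 → ℚ) ᵥ* autU_X B hBA ψ.symm) j := rfl
    rw [h3, ← h2, Matrix.one_apply]
    show (Pi.single i 1 : Fin 2 → ℚ) j = _
    rw [Pi.single_apply]
    by_cases hij : j = i
    · rw [if_pos hij, if_pos hij.symm]
    · rw [if_neg hij, if_neg fun h => hij h.symm]
  · have h1 : (Pi.single 0 1 : Fin 2 → ℚ) ∈ DeltaPos A := by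
      refine ⟨⟨_, autU_range B hBA _ 2⟩, 0, Pi.single 0 1, ?_⟩
      rw [pow_zero, Matrix.vecMul_one]
      funext j
      simp only [Pi.single_apply]
      split_ifs <;> simp
    have h2 := (hψ.pos ⟨Pi.single 0 1, autU_single B hBA 0⟩).mpr h1
    obtain ⟨_, k, z, hz⟩ := h2
    refine ⟨k, fun j => ?_⟩
    have h3 : (autU_X B hBA ψ * toQ A ^ k) 0 j =
        ((ψ ⟨Pi.single 0 1, autU_single B hBA 0⟩ : Fin 2 → ℚ) ᵥ* toQ A ^ k) j := rfl
    rw [h3, hz]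
    exact Nat.cast_nonneg _


theorem aut_mat (hdetA : (toZ A).det ≠ 0) (hψ : IsDimAut A ψ) :
    ∃ (Z T : Matrix (Fin 2) (Fin 2) ℤ) (k m j : ℕ), Z * toZ A = toZ A * Z ∧ T * Z = toZ A ^ m ∧
      (∀ i, 0 ≤ (Z * toZ A ^ j) 0 i) ∧ ∀ v ∈ DimGroup A, ψ v ᵥ* toQ A ^ k = v ᵥ* zQ Z := by
  have hdet : (toQ A).det = (((toZ A).det : ℤ) : ℚ) := by
    rw [Matrix.det_fin_two, Matrix.det_fin_two]
    simp only [toQ, toZ, Matrix.map_apply]
    push_cast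
    ring
  have hu : IsUnit (toQ A).det := by
    rw [hdet]
    exact isUnit_iff_ne_zero.2 (by exact_mod_cast hdetA)
  have hBA : (toQ A)⁻¹ * toQ A = 1 := Matrix.nonsing_inv_mul _ hu
  obtain ⟨X, X', Y, Y', K, hXX', hAX, hv, hY, hY', k, hk⟩ := autU_exists (toQ A)⁻¹ hBA hψ.equiv hψ.isAut
  have hX'X : X' * X = 1 := mul_eq_one_comm.mp hXX'
  have hzpow : ∀ m : ℕ, zQ (toZ A ^ m) = toQ A ^ m := by
    intro m
    rw [zQ_pow, zQ_toZ]
  have hcX : Commute (toQ A) X := hAX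
  have hTZ : Y' * Y = toZ A ^ (K + K) := by
    apply zQ_injective
    rw [zQ_mul, ← hY, ← hY', hzpow, pow_add]
    have h1 : toQ A ^ K * X = X * toQ A ^ K := (hcX.pow_left K).eq
    calc X' * toQ A ^ K * (X * toQ A ^ K) = X' * (toQ A ^ K * X) * toQ A ^ K := by
          simp only [Matrix.mul_assoc]
      _ = (X' * X) * toQ A ^ K * toQ A ^ K := by rw [h1]; simp only [Matrix.mul_assoc]
      _ = toQ A ^ K * toQ A ^ K := by rw [hX'X, Matrix.one_mul]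
  have hYA : Y * toZ A = toZ A * Y := by
    apply zQ_injective
    rw [zQ_mul, zQ_mul, zQ_toZ, ← hY, Matrix.mul_assoc, ← pow_succ, pow_succ', ← Matrix.mul_assoc,
      ← Matrix.mul_assoc, hAX]
  refine ⟨Y, Y', K, K + K, k, hYA, hTZ, ?_, ?_⟩
  · intro i
    have e1 : zQ (Y * toZ A ^ k) = X * toQ A ^ k * toQ A ^ K := by
      rw [zQ_mul, hzpow, ← hY, Matrix.mul_assoc, Matrix.mul_assoc, ← pow_add, ← pow_add, add_comm]
    have e2 : (((Y * toZ A ^ k) 0 i : ℤ) : ℚ) = (X * toQ A ^ k * toQ A ^ K) 0 i := by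
      rw [← e1]
      rfl
    have e3 : (0 : ℚ) ≤ (X * toQ A ^ k * toQ A ^ K) 0 i := by
      rw [Matrix.mul_apply]
      refine Finset.sum_nonneg fun j _ => mul_nonneg (hk j) ?_
      rw [← toQ_pow]
      exact Nat.cast_nonneg _
    rw [← e2] at e3
    exact_mod_cast e3
  · intro v hvm
    have h1 := hv ⟨v, hvm⟩
    rw [hψ.equiv_apply] at h1
    simp only at h1
    rw [h1, Matrix.vecMul_vecMul, hY]

end Pool.Agent.DimRep.UE
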