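import Pool.Agent.Lib.MP_5f1e54_an.TB2.Lnk

/-!
# UE-Core: 2 x 2 matrices with integer eigenvalues `lam > |mu| > 0`

`IsT mu m a b B`: `B = !![m a + mu, m b; m a, m b + mu]`, `a, b ≥ 1`, `gcd(a, a + b) = 1`; row sums `lam = m g + mu`, `g = a + b`.
`Ctx mu m g lam`: the standing hypotheses, `g` coprime to `mu`.
`step`: for `c c2 = lam`, `d d2 = mu` the matrix `N = !![v + d, c - v - d; v, c - v]`, `g v = c a - d a'`, is a factor of
`!![m a' + mu, m b'; m a', m b' + mu]`, and both factors are nonnegative if (`|d| = 1` or `|d| (g - 1) ≤ c`) and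
(`|d2| = 1` or `|d2| (g - 1) ≤ c2`): a direct elementary equivalence.
-/

open Matrix

namespace Pool.Agent.DimRep.UE

open Pool.Agent.DimRep.TB2 (Lnk)

/-- `B = !![m a + mu, m b; m a, m b + mu]` -/
def IsT (mu m a b : ℤ) (B : Matrix (Fin 2) (Fin 2) ℕ) : Prop :=
  toZ B = !![m * a + mu, m * b; m * a, m * b + mu] ∧ 1 ≤ a ∧ 1 ≤ b ∧ IsCoprime a (a + b)

/-- the standing hypotheses -/
structure Ctx (mu m g lam : ℤ) : Prop where
  mu0 : mu ≠ 0
  m1 : 1 ≤ m
  mum : -mu ≤ m
  g2 : 2 ≤ g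
  cop : IsCoprime g mu
  lam_eq : lam = m * g + mu
  lam1 : 1 ≤ lam
  small : ∀ p : ℕ, p.Prime → (p : ℤ) ∣ lam → |mu| = 1 ∨ p * |mu| * (g - 1) ^ 2 ≤ lam

/-- from an integral factorisation to a link -/
theorem lnk_of_int {A B : Matrix (Fin 2) (Fin 2) ℕ} {R S : Matrix (Fin 2) (Fin 2) ℤ} (hR : Nn R)
    (hS : Nn S) (hA : toZ A = R * S) (hB : toZ B = S * R) (hd : S.det ≠ 0) : Lnk A B (zQ S) := by
  obtain ⟨R', rfl⟩ := exists_nat_of_nn hR
  obtain ⟨S', rfl⟩ := exists_nat_of_nn hS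
  have h1 : A = R' * S' := by
    apply map_cast_injective
    rw [map_cast_mul, ← hA]
    rfl
  have h2 : B = S' * R' := by
    apply map_cast_injective
    rw [map_cast_mul, ← hB]
    rfl
  have h3 : zQ (S'.map (fun x : ℕ => (x : ℤ))) = toQ S' := zQ_toZ S'
  rw [h3]
  refine Lnk.esse h1 h2 ?_
  intro h0
  apply hd
  have h4 : (toQ S').det = (((S'.map (fun x : ℕ => (x : ℤ))).det : ℤ) : ℚ) := by
    rw [Matrix.det_fin_two, Matrix.det_fin_two]
    simp only [toQ, Matrix.map_apply]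
    push_cast
    ring
  rw [h4] at h0
  exact_mod_cast h0

theorem nn_fin2 {a b c d : ℤ} (ha : 0 ≤ a) (hb : 0 ≤ b) (hc : 0 ≤ c) (hd : 0 ≤ d) :
    Nn (!![a, b; c, d] : Matrix (Fin 2) (Fin 2) ℤ) := by
  intro i j
  fin_cases i <;> fin_cases j <;> simp <;> assumption

variable {mu m g lam : ℤ}

theorem exists_isT (h : Ctx mu m g lam) {a b : ℤ} (ha : 1 ≤ a) (hb : 1 ≤ b) (hc : IsCoprime a (a + b)) :
    ∃ B, IsT mu m a b B := by
  have h1 : m ≤ m * a := by nlinarith [h.m1]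
  have h2 : m ≤ m * b := by nlinarith [h.m1]
  have h3 := h.m1
  have h4 := h.mum
  have hn : Nn (!![m * a + mu, m * b; m * a, m * b + mu] : Matrix (Fin 2) (Fin 2) ℤ) :=
    nn_fin2 (by omega) (by omega) (by omega) (by omega)
  obtain ⟨B, hB⟩ := exists_nat_of_nn hn
  exact ⟨B, hB.symm, ha, hb, hc⟩

theorem isT_inj {a b : ℤ} {B C : Matrix (Fin 2) (Fin 2) ℕ} (hB : IsT mu m a b B) (hC : IsT mu m a b C) :
    B = C := by
  apply map_cast_injective
  exact hB.1.trans hC.1.symm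

/-- the size estimate -/
theorem size {c s a b : ℤ} (hg : 2 ≤ g) (h : |s| = 1 ∨ |s| * (g - 1) ≤ c) (hc : 1 ≤ c) (ha : 1 ≤ a)
    (hb : 0 ≤ b) (hb' : b ≤ g - 1) : -g < c * a + s * b := by
  have h1 : -(|s| * (g - 1)) ≤ s * b := by
    have h2 : -(|s| * b) ≤ s * b := by
      have := neg_abs_le (s * b)
      rwa [abs_mul, abs_of_nonneg hb] at this
    have h3 : |s| * b ≤ |s| * (g - 1) := mul_le_mul_of_nonneg_left hb' (abs_nonneg s)
    omega
  have h4 : c ≤ c * a := by nlinarith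
  rcases h with h | h
  · rw [h, one_mul] at h1
    omega
  · omega

theorem nn_of (hg : 2 ≤ g) {w : ℤ} (h : -g < g * w) : 0 ≤ w := by
  by_contra hn
  have : w ≤ -1 := by omega
  nlinarith

/-- the direct step -/
theorem step (h : Ctx mu m g lam) {c c2 d d2 a' b' : ℤ} (hc : c * c2 = lam) (hd : d * d2 = mu) (hc1 : 1 ≤ c)
    (h1 : |d| = 1 ∨ |d| * (g - 1) ≤ c) (h2 : |d2| = 1 ∨ |d2| * (g - 1) ≤ c2)
    {C : Matrix (Fin 2) (Fin 2) ℕ} (hC : IsT mu m a' b' C) (hab : a' + b' = g) :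
    ∃ (a b v : ℤ) (B : Matrix (Fin 2) (Fin 2) ℕ), IsT mu m a b B ∧ a + b = g ∧
      g * v = c * a - d * a' ∧ Lnk B C (zQ !![v + d, c - v - d; v, c - v]) := by
  obtain ⟨hC0, ha', hb', hcop'⟩ := hC
  rw [hab] at hcop'
  have hg := h.g2
  have hg0 : g ≠ 0 := by omega
  have hlam1 := h.lam1
  have hc2 : 1 ≤ c2 := by
    have : 0 < c * c2 := by omega
    have := (mul_pos_iff_of_pos_left (by omega)).1 this
    omega
  have hgl : IsCoprime g lam := by
    rw [h.lam_eq, add_comm]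
    exact h.cop.add_mul_right_right m
  have hgc : IsCoprime g c := IsCoprime.of_isCoprime_of_dvd_right hgl ⟨c2, hc.symm⟩
  have hgd : IsCoprime g d := IsCoprime.of_isCoprime_of_dvd_right h.cop ⟨d2, hd.symm⟩
  obtain ⟨s, t, hst⟩ := hgc
  obtain ⟨a, ha⟩ : ∃ a, a = (t * d * a') % g := ⟨_, rfl⟩
  obtain ⟨w, hw⟩ : ∃ w, t * d * a' = g * w + a :=
    ⟨(t * d * a') / g, by rw [ha]; exact (Int.mul_ediv_add_emod _ _).symm⟩
  have ha0 : 0 ≤ a := by rw [ha]; exact Int.emod_nonneg _ hg0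
  have hag : a < g := by rw [ha]; exact Int.emod_lt_of_pos _ (by omega)
  -- `c a = d a' + g v`
  obtain ⟨v, hv⟩ : ∃ v, g * v = c * a - d * a' := by
    refine ⟨-(c * w) - s * d * a', ?_⟩
    linear_combination c * hw + (-(d * a')) * hst
  have hcopa : IsCoprime a g := by
    have k1 : IsCoprime (d * a') g := hgd.symm.mul_left hcop'
    have k2 : IsCoprime (c * a) g := by
      have : c * a = d * a' + v * g := by linear_combination -hv
      rw [this]
      exact k1.add_mul_right_left v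
    exact k2.of_mul_left_right
  have ha1 : 1 ≤ a := by
    rcases lt_or_eq_of_le ha0 with hlt | heq
    · omega
    · exfalso
      rw [← heq] at hcopa
      have := isCoprime_zero_left.1 hcopa
      rw [Int.isUnit_iff] at this
      omega
  obtain ⟨b, hb⟩ : ∃ b, b = g - a := ⟨_, rfl⟩
  have hb1 : 1 ≤ b := by omega
  have hab2 : a + b = g := by omega
  obtain ⟨B, hB⟩ := exists_isT h ha1 hb1 (by rw [hab2]; exact hcopa)
  have hle := h.lam_eq
  -- the complementary factor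
  obtain ⟨v2, hv2⟩ : g ∣ c2 * a' - d2 * a := by
    have k1 : g ∣ c * (c2 * a' - d2 * a) := by
      refine ⟨m * a' - d2 * v, ?_⟩
      linear_combination a' * hc + a' * hle - a' * hd + d2 * hv
    have hgc' : IsCoprime g c := ⟨s, t, hst⟩
    exact hgc'.dvd_of_dvd_mul_left k1
  have e1 : m * a' = c * v2 + d2 * v := by
    apply mul_left_cancel₀ hg0
    linear_combination (-a') * hle + c * hv2 - d2 * hv - a' * hc + a' * hd
  have e2 : m * a = c2 * v + d * v2 := by
    apply mul_left_cancel₀ hg0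
    linear_combination (-a) * hle - c2 * hv + d * hv2 - a * hc + a * hd
  have sd : ∀ s : ℤ, s = d ∨ s = -d → (|s| = 1 ∨ |s| * (g - 1) ≤ c) := by
    rintro s (rfl | rfl)
    · exact h1
    · rwa [abs_neg]
  have sd2 : ∀ s : ℤ, s = d2 ∨ s = -d2 → (|s| = 1 ∨ |s| * (g - 1) ≤ c2) := by
    rintro s (rfl | rfl)
    · exact h2
    · rwa [abs_neg]
  have n1 : 0 ≤ v := nn_of hg (by
    have := size hg (sd (-d) (Or.inr rfl)) hc1 ha1 (by omega : 0 ≤ a') (by omega)
    rw [hv]; linarith)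
  have n2 : 0 ≤ v + d := nn_of hg (by
    have := size hg (sd d (Or.inl rfl)) hc1 ha1 (by omega : 0 ≤ b') (by omega)
    have e : g * (v + d) = c * a + d * b' := by rw [mul_add, hv, ← hab]; ring
    rw [e]; exact this)
  have n3 : 0 ≤ c - v - d := nn_of hg (by
    have := size hg (sd (-d) (Or.inr rfl)) hc1 hb1 (by omega : 0 ≤ b') (by omega)
    have e : g * (c - v - d) = c * b + -d * b' := by
      have : g * (c - v - d) = g * c - g * v - g * d := by ring
      rw [this, hv, hb, ← hab]; ring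
    rw [e]; exact this)
  have n4 : 0 ≤ c - v := nn_of hg (by
    have := size hg (sd d (Or.inl rfl)) hc1 hb1 (by omega : 0 ≤ a') (by omega)
    have e : g * (c - v) = c * b + d * a' := by
      have : g * (c - v) = g * c - g * v := by ring
      rw [this, hv, hb]; ring
    rw [e]; exact this)
  have r1 : 0 ≤ v2 := nn_of hg (by
    have := size hg (sd2 (-d2) (Or.inr rfl)) hc2 ha' (by omega : 0 ≤ a) (by omega)
    rw [← hv2]; linarith)
  have r2 : 0 ≤ v2 + d2 := nn_of hg (by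
    have := size hg (sd2 d2 (Or.inl rfl)) hc2 ha' (by omega : 0 ≤ b) (by omega)
    have e : g * (v2 + d2) = c2 * a' + d2 * b := by rw [mul_add, ← hv2, hb]; ring
    rw [e]; exact this)
  have r3 : 0 ≤ c2 - v2 - d2 := nn_of hg (by
    have := size hg (sd2 (-d2) (Or.inr rfl)) hc2 hb' (by omega : 0 ≤ b) (by omega)
    have e : g * (c2 - v2 - d2) = c2 * b' + -d2 * b := by
      have : g * (c2 - v2 - d2) = g * c2 - g * v2 - g * d2 := by ring
      rw [this, ← hv2, hb, ← hab]; ring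
    rw [e]; exact this)
  have r4 : 0 ≤ c2 - v2 := nn_of hg (by
    have := size hg (sd2 d2 (Or.inl rfl)) hc2 hb' (by omega : 0 ≤ a) (by omega)
    have e : g * (c2 - v2) = c2 * b' + d2 * a := by
      have : g * (c2 - v2) = g * c2 - g * v2 := by ring
      rw [this, ← hv2, ← hab]; ring
    rw [e]; exact this)
  have eb' : m * b' = c * c2 - d * d2 - (c * v2 + d2 * v) := by
    rw [← e1, hc, hd, hle, ← hab]; ring
  have eb : m * b = c * c2 - d * d2 - (c2 * v + d * v2) := by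
    rw [← e2, hc, hd, hle, ← hab2]; ring
  refine ⟨a, b, v, B, hB, hab2, hv, ?_⟩
  refine lnk_of_int (R := !![v2 + d2, c2 - v2 - d2; v2, c2 - v2]) (nn_fin2 r2 r3 r1 r4)
    (nn_fin2 n2 n3 n1 n4) ?_ ?_ ?_
  · rw [hB.1, eb, e2, ← hd]
    ext i j
    fin_cases i <;> fin_cases j <;> simp [Matrix.mul_apply, Fin.sum_univ_two] <;> ring
  · rw [hC0, eb', e1, ← hd]
    ext i j
    fin_cases i <;> fin_cases j <;> simp [Matrix.mul_apply, Fin.sum_univ_two] <;> ring
  · rw [Matrix.det_fin_two_of]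
    have : (v + d) * (c - v) - (c - v - d) * v = c * d := by ring
    rw [this]
    refine mul_ne_zero (by omega) ?_
    rintro rfl
    exact h.mu0 (by rw [← hd, zero_mul])

end Pool.Agent.DimRep.UE
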