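import Pool.Agent.Lib.MP_5f1e54_an.UE.All
import Pool.Agent.Lib.MP_5f1e54_an.UE.Aut

/-!
# UE-Main: the dimension representation of 2 x 2 matrices with integer eigenvalues
-/

open Matrix

namespace Pool.Agent.DimRep.UE

open Pool.Agent.DimRep.TB2 (Lnk)

variable {mu m g lam : ℤ}

/-- `A = mu I + m r lᵀ` with `r, l ≥ 1` is linked with a matrix `IsT` -/
theorem reach (h : Ctx mu m g lam) (hmu : 3 ≤ g → mu ≤ m) (n : ℕ) : ∀ (r0 r1 l0 l1 : ℤ) (A : Matrix (Fin 2) (Fin 2) ℕ),
    (r0 + r1).toNat = n → 1 ≤ r0 → 1 ≤ r1 → 1 ≤ l0 → 1 ≤ l1 → IsCoprime r0 r1 → IsCoprime l0 l1 →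
    r0 * l0 + r1 * l1 = g →
    toZ A = !![m * (r0 * l0) + mu, m * (r0 * l1); m * (r1 * l0), m * (r1 * l1) + mu] →
    ∃ (a b : ℤ) (C : Matrix (Fin 2) (Fin 2) ℕ) (X X' : Matrix (Fin 2) (Fin 2) ℤ), IsT mu m a b C ∧
      a + b = g ∧ X * X' = 1 ∧ Nn X' ∧ Lnk A C (zQ X) := by
  have hm1 := h.m1
  have hmm := h.mum
  have big : ∀ x : ℤ, 1 ≤ x → m ≤ m * x := fun x hx => by nlinarith
  induction n using Nat.strong_induction_on with
  | _ n ih =>
    intro r0 r1 l0 l1 A hn hr0 hr1 hl0 hl1 hcr hcl hgg hA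
    rcases lt_trichotomy r0 r1 with hlt | heq | hlt
    · -- `r0 < r1`
      have hg3 : 3 ≤ g := by nlinarith
      have hmu' := hmu hg3
      have hA' : Nn (!![m * (r0 * (l0 + l1)) + mu, m * (r0 * l1); m * ((r1 - r0) * (l0 + l1)), m * ((r1 - r0) * l1) + mu] :
          Matrix (Fin 2) (Fin 2) ℤ) := by
        have h1 := big (r0 * (l0 + l1)) (by nlinarith)
        have h2 := big (r0 * l1) (by nlinarith)
        have h3 := big ((r1 - r0) * (l0 + l1)) (by nlinarith)
        have h4 := big ((r1 - r0) * l1) (by nlinarith)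
        exact nn_fin2 (by omega) (by omega) (by omega) (by omega)
      obtain ⟨A', hA''⟩ := exists_nat_of_nn hA'
      obtain ⟨x, y, C, X, X', g1, g0, g2, g3, g4⟩ := ih (r0 + (r1 - r0)).toNat (by omega) r0 (r1 - r0) (l0 + l1) l1
        A' rfl hr0 (by omega) (by omega) hl1
        (by
          have := hcr.add_mul_left_right (-1)
          rwa [show r1 + r0 * -1 = r1 - r0 by ring] at this)
        (by
          have := hcl.add_mul_right_left 1
          rwa [show l0 + 1 * l1 = l0 + l1 by ring] at this)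
        (by rw [← hgg]; ring) hA''.symm
      have h5 : Lnk A' A (zQ !![1, 0; 1, 1]) := by
        refine lnk_of_int (R := !![m * (r0 * l0) + mu, m * (r0 * l1); m * ((r1 - r0) * l0) - mu, m * ((r1 - r0) * l1) + mu]) ?_ ?_ ?_ ?_ ?_
        · have h1 := big (r0 * l0) (by nlinarith)
          have h2 := big (r0 * l1) (by nlinarith)
          have h3 := big ((r1 - r0) * l0) (by nlinarith)
          have h4 := big ((r1 - r0) * l1) (by nlinarith)
          exact nn_fin2 (by omega) (by omega) (by omega) (by omega)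
        · exact nn_fin2 (by omega) (by omega) (by omega) (by omega)
        · show A'.map (fun x : ℕ => (x : ℤ)) = _
          rw [← hA'']
          ext i j
          fin_cases i <;> fin_cases j <;> simp [Matrix.mul_apply, Fin.sum_univ_two] <;> ring
        · rw [hA]
          ext i j
          fin_cases i <;> fin_cases j <;> simp [Matrix.mul_apply, Fin.sum_univ_two] <;> ring
        · rw [Matrix.det_fin_two_of]
          norm_num
      have hinv : (zQ !![1, 0; 1, 1])⁻¹ = zQ !![1, 0; -1, 1] := by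
        apply Matrix.inv_eq_right_inv
        rw [← zQ_mul, ← zQ_one]
        congr 1
        ext i j
        fin_cases i <;> fin_cases j <;> simp [Matrix.mul_apply, Fin.sum_univ_two]
      have h6 := h5.symm.trans g4
      rw [hinv, ← zQ_mul] at h6
      refine ⟨x, y, C, X * !![1, 0; -1, 1], !![1, 0; 1, 1] * X', g1, g0, ?_, ?_, h6⟩
      · have : (!![1, 0; -1, 1] : Matrix (Fin 2) (Fin 2) ℤ) * !![1, 0; 1, 1] = 1 := by
          ext i j
          fin_cases i <;> fin_cases j <;> simp [Matrix.mul_apply, Fin.sum_univ_two]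
        rw [Matrix.mul_assoc, ← Matrix.mul_assoc _ _ X', this, Matrix.one_mul, g2]
      · intro i j
        rw [Matrix.mul_apply, Fin.sum_univ_two]
        have a := g3 0 j
        have b := g3 1 j
        fin_cases i <;> simp <;> omega
    · -- `r0 = r1`
      subst heq
      have hr : r0 = 1 := by
        have := isCoprime_self.1 hcr
        rw [Int.isUnit_iff] at this
        omega
      subst hr
      rw [one_mul, one_mul] at hgg
      refine ⟨l0, l1, A, 1, 1, ⟨?_, hl0, hl1, ?_⟩, hgg, by simp, ?_, ?_⟩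
      · rw [hA, one_mul, one_mul]
      · have := hcl.add_mul_left_right 1
        rwa [show l1 + l0 * 1 = l0 + l1 by ring] at this
      · intro i j
        rw [Matrix.one_apply]
        split_ifs <;> simp
      · rw [zQ_one]
        exact Lnk.refl
    · -- `r1 < r0`
      have hg3 : 3 ≤ g := by nlinarith
      have hmu' := hmu hg3
      have hA' : Nn (!![m * ((r0 - r1) * l0) + mu, m * ((r0 - r1) * (l0 + l1)); m * (r1 * l0), m * (r1 * (l0 + l1)) + mu] :
          Matrix (Fin 2) (Fin 2) ℤ) := by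
        have h1 := big (r1 * (l0 + l1)) (by nlinarith)
        have h2 := big (r1 * l0) (by nlinarith)
        have h3 := big ((r0 - r1) * (l0 + l1)) (by nlinarith)
        have h4 := big ((r0 - r1) * l0) (by nlinarith)
        exact nn_fin2 (by omega) (by omega) (by omega) (by omega)
      obtain ⟨A', hA''⟩ := exists_nat_of_nn hA'
      obtain ⟨x, y, C, X, X', g1, g0, g2, g3, g4⟩ := ih ((r0 - r1) + r1).toNat (by omega) (r0 - r1) r1 l0 (l0 + l1)
        A' rfl (by omega) hr1 hl0 (by omega)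
        (by
          have := hcr.add_mul_left_left (-1)
          rwa [show r0 + r1 * -1 = r0 - r1 by ring] at this)
        (by
          have := hcl.add_mul_left_right 1
          rwa [show l1 + l0 * 1 = l0 + l1 by ring] at this)
        (by rw [← hgg]; ring) hA''.symm
      have h5 : Lnk A' A (zQ !![1, 1; 0, 1]) := by
        refine lnk_of_int (R := !![m * ((r0 - r1) * l0) + mu, m * ((r0 - r1) * l1) - mu; m * (r1 * l0), m * (r1 * l1) + mu]) ?_ ?_ ?_ ?_ ?_
        · have h1 := big (r1 * l1) (by nlinarith)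
          have h2 := big (r1 * l0) (by nlinarith)
          have h3 := big ((r0 - r1) * l0) (by nlinarith)
          have h4 := big ((r0 - r1) * l1) (by nlinarith)
          exact nn_fin2 (by omega) (by omega) (by omega) (by omega)
        · exact nn_fin2 (by omega) (by omega) (by omega) (by omega)
        · show A'.map (fun x : ℕ => (x : ℤ)) = _
          rw [← hA'']
          ext i j
          fin_cases i <;> fin_cases j <;> simp [Matrix.mul_apply, Fin.sum_univ_two] <;> ring
        · rw [hA]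
          ext i j
          fin_cases i <;> fin_cases j <;> simp [Matrix.mul_apply, Fin.sum_univ_two] <;> ring
        · rw [Matrix.det_fin_two_of]
          norm_num
      have hinv : (zQ !![1, 1; 0, 1])⁻¹ = zQ !![1, -1; 0, 1] := by
        apply Matrix.inv_eq_right_inv
        rw [← zQ_mul, ← zQ_one]
        congr 1
        ext i j
        fin_cases i <;> fin_cases j <;> simp [Matrix.mul_apply, Fin.sum_univ_two]
      have h6 := h5.symm.trans g4
      rw [hinv, ← zQ_mul] at h6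
      refine ⟨x, y, C, X * !![1, -1; 0, 1], !![1, 1; 0, 1] * X', g1, g0, ?_, ?_, h6⟩
      · have : (!![1, -1; 0, 1] : Matrix (Fin 2) (Fin 2) ℤ) * !![1, 1; 0, 1] = 1 := by
          ext i j
          fin_cases i <;> fin_cases j <;> simp [Matrix.mul_apply, Fin.sum_univ_two]
        rw [Matrix.mul_assoc, ← Matrix.mul_assoc _ _ X', this, Matrix.one_mul, g2]
      · intro i j
        rw [Matrix.mul_apply, Fin.sum_univ_two]
        have a := g3 0 j
        have b := g3 1 j
        fin_cases i <;> simp <;> omega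

/-- the factorisation of a positive matrix of determinant `0` -/
theorem rank_one {a b c d : ℤ} (ha : 1 ≤ a) (hb : 1 ≤ b) (hc : 1 ≤ c) (h : a * d = b * c) :
    ∃ r0 r1 l0 l1 : ℤ, 1 ≤ r0 ∧ 1 ≤ r1 ∧ 1 ≤ l0 ∧ 1 ≤ l1 ∧ IsCoprime l0 l1 ∧ a = r0 * l0 ∧ b = r0 * l1 ∧
      c = r1 * l0 ∧ d = r1 * l1 := by
  have hg : 0 < (Int.gcd a b : ℤ) := by
    have : 0 < Int.gcd a b := Int.gcd_pos_of_ne_zero_left b (by omega)
    exact_mod_cast this
  obtain ⟨l0, hl0⟩ := Int.gcd_dvd_left a b
  obtain ⟨l1, hl1⟩ := Int.gcd_dvd_right a b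
  have hcop : IsCoprime l0 l1 := by
    have h1 := Int.gcd_ediv_gcd_ediv_gcd (i := a) (j := b) (Int.gcd_pos_of_ne_zero_left b (by omega))
    have h2 : a / (Int.gcd a b : ℤ) = l0 := Int.ediv_eq_of_eq_mul_right hg.ne' hl0
    have h3 : b / (Int.gcd a b : ℤ) = l1 := Int.ediv_eq_of_eq_mul_right hg.ne' hl1
    rw [h2, h3] at h1
    exact Int.isCoprime_iff_gcd_eq_one.2 h1
  generalize hgen : (Int.gcd a b : ℤ) = g at hg hl0 hl1
  have p0 : 1 ≤ l0 := by
    have : 0 < g * l0 := by omega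
    have := (mul_pos_iff_of_pos_left hg).1 this
    omega
  have p1 : 1 ≤ l1 := by
    have : 0 < g * l1 := by omega
    have := (mul_pos_iff_of_pos_left hg).1 this
    omega
  have h1 : l0 * d = l1 * c := by
    apply mul_left_cancel₀ hg.ne'
    rw [← mul_assoc, ← mul_assoc, ← hl0, ← hl1, h]
  have h2 : l0 ∣ c := by
    have : l0 ∣ l1 * c := ⟨d, h1.symm⟩
    exact hcop.dvd_of_dvd_mul_left this
  obtain ⟨r1, hr1⟩ := h2
  have p2 : 1 ≤ r1 := by
    have : 0 < l0 * r1 := by omega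
    have := (mul_pos_iff_of_pos_left (by omega)).1 this
    omega
  refine ⟨g, r1, l0, l1, by omega, p2, p0, p1, hcop, hl0, hl1, by rw [hr1]; ring, ?_⟩
  apply mul_left_cancel₀ (by omega : l0 ≠ 0)
  rw [h1, hr1]
  ring

/-- the functional `M ↦ M 0 0 - M 1 0` on powers of a matrix `IsT` -/
theorem pow_sums {a b : ℤ} {C : Matrix (Fin 2) (Fin 2) ℕ} (hC : IsT mu m a b C) (hl : lam = m * (a + b) + mu)
    (k : ℕ) :
    (toZ C ^ k) 0 0 + (toZ C ^ k) 0 1 = lam ^ k ∧
    (toZ C ^ k) 1 0 + (toZ C ^ k) 1 1 = lam ^ k ∧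
    (toZ C ^ k) 0 0 - (toZ C ^ k) 1 0 = mu ^ k := by
  induction k with
  | zero => simp
  | succ k ih =>
    obtain ⟨h1, h2, h3⟩ := ih
    rw [pow_succ (toZ C)]
    simp only [Matrix.mul_apply, Fin.sum_univ_two]
    have c00 : toZ C 0 0 = m * a + mu := by rw [hC.1]; rfl
    have c01 : toZ C 0 1 = m * b := by rw [hC.1]; rfl
    have c10 : toZ C 1 0 = m * a := by rw [hC.1]; rfl
    have c11 : toZ C 1 1 = m * b + mu := by rw [hC.1]; rfl
    rw [c00, c01, c10, c11, pow_succ, pow_succ]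
    refine ⟨?_, ?_, ?_⟩
    · rw [hl] at h1 ⊢
      linear_combination (m * (a + b) + mu) * h1
    · rw [hl] at h2 ⊢
      linear_combination (m * (a + b) + mu) * h2
    · linear_combination (m * a) * (h1 - h2) + mu * h3

/-- **main theorem** -/
theorem main (h : Ctx mu m g lam) (hmu : 3 ≤ g → mu ≤ m) {r0 r1 l0 l1 : ℤ} {A : Matrix (Fin 2) (Fin 2) ℕ}
    (hr0 : 1 ≤ r0) (hr1 : 1 ≤ r1) (hl0 : 1 ≤ l0) (hl1 : 1 ≤ l1) (hcr : IsCoprime r0 r1) (hcl : IsCoprime l0 l1)
    (hgg : r0 * l0 + r1 * l1 = g)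
    (hAZ : toZ A = !![m * (r0 * l0) + mu, m * (r0 * l1); m * (r1 * l0), m * (r1 * l1) + mu])
    {ψ : (Fin 2 → ℚ) → (Fin 2 → ℚ)} (hψ : IsDimAut A ψ) : InImageOfDimRep A ψ := by
  obtain ⟨x, y, C, X, X', hC, hxy, hXX', hX', hL⟩ := reach h hmu _ r0 r1 l0 l1 A rfl hr0 hr1 hl0 hl1 hcr hcl
    hgg hAZ
  have hX'X : X' * X = 1 := mul_eq_one_comm.mp hXX'
  obtain ⟨hC0, hx, hy, hcop⟩ := hC
  have hC : IsT mu m x y C := ⟨hC0, hx, hy, hcop⟩
  have hm1 := h.m1
  have hle := h.lam_eq
  have hle' : lam = m * (x + y) + mu := by rw [hxy]; exact hle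
  -- `X A = C X`
  have hXA : X * toZ A = toZ C * X := by
    apply zQ_injective
    rw [zQ_mul, zQ_mul, zQ_toZ, zQ_toZ]
    exact hL.2.1
  have hAX' : toZ A * X' = X' * toZ C := by
    calc toZ A * X' = X' * (X * toZ A) * X' := by
          rw [← Matrix.mul_assoc, hX'X, Matrix.one_mul]
      _ = X' * toZ C := by
          rw [hXA, Matrix.mul_assoc, Matrix.mul_assoc, hXX', Matrix.mul_one]
  have hlam : 0 < lam := by have := h.lam1; omega
  have hdetC : (toZ C).det = mu * lam := by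
    rw [hC0, Matrix.det_fin_two_of, hle']
    ring
  have hdetA : (toZ A).det ≠ 0 := by
    have h1 : (toZ A).det = (toZ C).det := by
      have h2 := congrArg Matrix.det hXA
      rw [Matrix.det_mul, Matrix.det_mul, mul_comm] at h2
      have h3 : X.det ≠ 0 := by
        intro h0
        have h4 := congrArg Matrix.det hXX'
        rw [Matrix.det_mul, h0, zero_mul, Matrix.det_one] at h4
        exact zero_ne_one h4
      exact mul_right_cancel₀ h3 h2
    rw [h1, hdetC]
    exact mul_ne_zero h.mu0 hlam.ne'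
  obtain ⟨Z, T, k, kk, j, hZA, hTZ, hpos, hv⟩ := aut_mat hdetA hψ
  -- the matrix in the new basis
  obtain ⟨Y, hY⟩ : ∃ Y, Y = X * Z * X' := ⟨_, rfl⟩
  have hYC : Y * toZ C = toZ C * Y := by
    calc Y * toZ C = X * Z * (X' * toZ C) := by rw [hY, Matrix.mul_assoc]
      _ = X * (Z * toZ A) * X' := by rw [← hAX']; simp only [Matrix.mul_assoc]
      _ = (X * toZ A) * Z * X' := by rw [hZA]; simp only [Matrix.mul_assoc]
      _ = toZ C * Y := by rw [hXA, hY]; simp only [Matrix.mul_assoc]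
  obtain ⟨Y', hY'⟩ : ∃ Y', Y' = X * T * X' := ⟨_, rfl⟩
  have hpowA : ∀ i : ℕ, X * toZ A ^ i = toZ C ^ i * X := by
    intro i
    have h1 : SemiconjBy X (toZ A) (toZ C) := hXA
    exact h1.pow_right i
  have hY'Y : Y' * Y = toZ C ^ kk := by
    calc Y' * Y = X * T * (X' * X) * Z * X' := by rw [hY', hY]; simp only [Matrix.mul_assoc]
      _ = X * (T * Z) * X' := by rw [hX'X, Matrix.mul_one]; simp only [Matrix.mul_assoc]
      _ = toZ C ^ kk := by rw [hTZ, hpowA, Matrix.mul_assoc, hXX', Matrix.mul_one]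
  have c00 : toZ C 0 0 = m * x + mu := by rw [hC0]; rfl
  have c01 : toZ C 0 1 = m * y := by rw [hC0]; rfl
  have c10 : toZ C 1 0 = m * x := by rw [hC0]; rfl
  have c11 : toZ C 1 1 = m * y + mu := by rw [hC0]; rfl
  have k00 := congrFun (congrFun hYC 0) 0
  have k01 := congrFun (congrFun hYC 0) 1
  simp only [Matrix.mul_apply, Fin.sum_univ_two, c00, c01, c10, c11] at k00 k01
  have k1 : x * Y 0 1 = y * Y 1 0 := by
    apply mul_left_cancel₀ (by omega : m ≠ 0)
    linarith
  have k2 : Y 0 0 + Y 0 1 = Y 1 0 + Y 1 1 := by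
    apply mul_left_cancel₀ (by positivity : m * y ≠ 0)
    linarith
  -- the eigenvalues `al` and `u`
  obtain ⟨al, hal⟩ : ∃ al, al = Y 0 0 + Y 0 1 := ⟨_, rfl⟩
  obtain ⟨u, hu⟩ : ∃ u, u = Y 0 0 - Y 1 0 := ⟨_, rfl⟩
  obtain ⟨s1, s2, s3⟩ := pow_sums hC hle' kk
  rw [← hY'Y] at s1 s2 s3
  simp only [Matrix.mul_apply, Fin.sum_univ_two] at s1 s2 s3
  have t1 : (Y' 0 0 + Y' 0 1) * al = lam ^ kk := by
    rw [hal, ← s1]
    linear_combination (-(Y' 0 1)) * (-k2)
  have t2 : (Y' 1 0 + Y' 1 1) * al = lam ^ kk := by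
    rw [hal, ← s2]
    linear_combination (-(Y' 1 1)) * (-k2)
  have hal0 : al ≠ 0 := by
    intro h0
    rw [h0, mul_zero] at t1
    exact (pow_pos hlam kk).ne t1
  have t3 : Y' 0 0 + Y' 0 1 = Y' 1 0 + Y' 1 1 := by
    apply mul_right_cancel₀ hal0
    rw [t1, t2]
  have t4 : (Y' 0 0 - Y' 1 0) * u = mu ^ kk := by
    rw [hu, ← s3]
    linear_combination (-(Y 1 0)) * t3
  have hu0 : u ≠ 0 := by
    rintro h0
    rw [h0, mul_zero] at t4
    exact pow_ne_zero kk h.mu0 t4.symm
  -- the sign of `al`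
  have hal1 : 0 < al := by
    have e1 : ∀ i : ℕ, (Z * toZ A ^ i) * X' = X' * (Y * toZ C ^ i) := by
      intro i
      have h1 : toZ A ^ i * X' = X' * toZ C ^ i := by
        calc toZ A ^ i * X' = X' * (X * toZ A ^ i) * X' := by
              rw [← Matrix.mul_assoc, hX'X, Matrix.one_mul]
          _ = X' * toZ C ^ i := by
              rw [hpowA, Matrix.mul_assoc, Matrix.mul_assoc, hXX', Matrix.mul_one]
      calc (Z * toZ A ^ i) * X' = X' * (X * Z * X') * toZ C ^ i := by
            rw [Matrix.mul_assoc, h1]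
            have : X' * (X * Z * X') = Z * X' := by
              rw [Matrix.mul_assoc X Z, ← Matrix.mul_assoc X' X, hX'X, Matrix.one_mul]
            rw [this, Matrix.mul_assoc]
        _ = X' * (Y * toZ C ^ i) := by rw [← hY, Matrix.mul_assoc]
    have e2 := e1 j
    have f0 := congrFun (congrFun e2 0) 0
    have f1 := congrFun (congrFun e2 0) 1
    rw [Matrix.mul_apply, Matrix.mul_apply (M := X'), Fin.sum_univ_two, Fin.sum_univ_two] at f0 f1
    obtain ⟨w1, w2, -⟩ := pow_sums hC hle' j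
    have g0 : (Y * toZ C ^ j) 0 0 + (Y * toZ C ^ j) 0 1 = al * lam ^ j := by
      rw [Matrix.mul_apply, Matrix.mul_apply, Fin.sum_univ_two, Fin.sum_univ_two, hal]
      linear_combination Y 0 0 * w1 + Y 0 1 * w2
    have g1 : (Y * toZ C ^ j) 1 0 + (Y * toZ C ^ j) 1 1 = al * lam ^ j := by
      rw [Matrix.mul_apply, Matrix.mul_apply, Fin.sum_univ_two, Fin.sum_univ_two, hal, k2]
      linear_combination Y 1 0 * w1 + Y 1 1 * w2
    have f2 : (Z * toZ A ^ j) 0 0 * (X' 0 0 + X' 0 1) + (Z * toZ A ^ j) 0 1 * (X' 1 0 + X' 1 1)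
        = (X' 0 0 + X' 0 1) * (al * lam ^ j) := by
      linear_combination f0 + f1 + X' 0 0 * g0 + X' 0 1 * g1
    have n00 := hX' 0 0
    have n01 := hX' 0 1
    have n10 := hX' 1 0
    have n11 := hX' 1 1
    have f3 : 0 ≤ (X' 0 0 + X' 0 1) * (al * lam ^ j) := by
      rw [← f2]
      exact add_nonneg (mul_nonneg (hpos 0) (by omega)) (mul_nonneg (hpos 1) (by omega))
    have f4 : 0 < X' 0 0 + X' 0 1 := by
      rcases lt_or_eq_of_le (by omega : 0 ≤ X' 0 0 + X' 0 1) with h | h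
      · exact h
      · exfalso
        have h1 : X' 0 0 = 0 := by omega
        have h2 : X' 0 1 = 0 := by omega
        have h3 := congrArg Matrix.det hX'X
        rw [Matrix.det_mul, Matrix.det_fin_two X', h1, h2, Matrix.det_one] at h3
        simp at h3
    by_contra hn
    have h5 : al < 0 := by omega
    have h6 : al * lam ^ j < 0 := mul_neg_of_neg_of_pos h5 (pow_pos hlam j)
    have h7 := mul_neg_of_pos_of_neg f4 h6
    omega
  obtain ⟨a, ha⟩ := Int.eq_ofNat_of_zero_le hal1.le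
  have ha1' : 1 ≤ a := by omega
  have hYm : Y = !![Y 1 0 + u, (a : ℤ) - Y 1 0 - u; Y 1 0, (a : ℤ) - Y 1 0] := by
    have e1 : (a : ℤ) = Y 0 0 + Y 0 1 := by rw [← hal]; exact ha.symm
    ext i j
    fin_cases i <;> fin_cases j
    · show Y 0 0 = Y 1 0 + u
      rw [hu]; ring
    · show Y 0 1 = (a : ℤ) - Y 1 0 - u
      rw [hu, e1]; ring
    · rfl
    · show Y 1 1 = (a : ℤ) - Y 1 0
      rw [e1, k2]; ring
  have hLC : Lnk C C (zQ Y) := by
    rw [hYm]
    refine all_lnk h u.natAbs a x y x y (Y 1 0) u C C rfl ha1' hC hC hxy hxy hu0 ?_ ?_ ?_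
    · intro p hp hpu
      have h1 : (p : ℤ) ∣ mu ^ kk := by
        rw [← t4]
        exact Dvd.dvd.mul_left hpu _
      exact (Nat.prime_iff_prime_int.1 hp).dvd_of_dvd_pow h1
    · intro p hp hpa
      have h1 : (p : ℤ) ∣ lam ^ kk := by
        rw [← t1]
        apply Dvd.dvd.mul_left
        rw [ha]
        exact_mod_cast hpa
      exact (Nat.prime_iff_prime_int.1 hp).dvd_of_dvd_pow h1
    · have e1 : (a : ℤ) = Y 0 0 + Y 0 1 := by rw [← hal]; exact ha.symm
      rw [e1, hu, ← hxy]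
      linear_combination -k1
  have hLA : Lnk A A (zQ Z) := by
    have h1 := (hL.trans hLC).trans hL.symm
    have h2 : (zQ X)⁻¹ * (zQ Y * zQ X) = zQ Z := by
      have h3 : (zQ X)⁻¹ = zQ X' := by
        apply Matrix.inv_eq_right_inv
        rw [← zQ_mul, hXX', zQ_one]
      rw [h3, ← zQ_mul, ← zQ_mul]
      congr 1
      rw [hY]
      calc X' * (X * Z * X' * X) = X' * X * Z * (X' * X) := by simp only [Matrix.mul_assoc]
        _ = Z := by rw [hX'X, Matrix.one_mul, Matrix.mul_one]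
    rw [h2] at h1
    exact h1
  obtain ⟨W, i, h1, h2⟩ := hLA.good
  refine ⟨W, k + i, h1, fun v hvA => ?_⟩
  rw [h2, ← Matrix.vecMul_vecMul, ← hv v hvA, Matrix.vecMul_vecMul, ← pow_add]

end Pool.Agent.DimRep.UE
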